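import Pool.Agent.Helper35.PI.St4

/-!
Project PI (MP_b2fa09_gt), module V2: the mean curvature vector in divergence form.
-/

set_option autoImplicit false

namespace Helper99.PI

open Helper35.PI
open scoped ContDiff Manifold Topology BigOperators
open Set Filter

/-- Derivative of a determinant. -/
theorem hasFDerivAt_det {E : Type*} [NormedAddCommGroup E] [NormedSpace ℝ E] {n : ℕ}
    (G : E → Matrix (Fin n) (Fin n) ℝ) (G' : Fin n → Fin n → E →L[ℝ] ℝ) (x : E)
    (hG : ∀ i j, HasFDerivAt (fun y => G y i j) (G' i j) x) :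
    HasFDerivAt (fun y => (G y).det)
      (∑ i, ∑ j, (G x).adjugate j i • G' i j) x := by
  have h1 : ∀ σ : Equiv.Perm (Fin n), HasFDerivAt
      (fun y => ((Equiv.Perm.sign σ : ℤ) : ℝ) * ∏ i, G y (σ i) i)
      (((Equiv.Perm.sign σ : ℤ) : ℝ) • ∑ i, (∏ j ∈ Finset.univ.erase i, G x (σ j) j) • G' (σ i) i)
      x := by
    intro σ
    exact (HasFDerivAt.finsetProd (fun i _ => hG (σ i) i)).const_mul _
  have h2 := HasFDerivAt.fun_sum (u := Finset.univ) (fun σ _ => h1 σ)
  have h3 : (fun y => (G y).det) = fun y => ∑ σ : Equiv.Perm (Fin n),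
      ((Equiv.Perm.sign σ : ℤ) : ℝ) * ∏ i, G y (σ i) i := by
    funext y
    rw [Matrix.det_apply']
  rw [h3]
  refine h2.congr_fderiv ?_
  refine ContinuousLinearMap.ext fun v => ?_
  symm
  have key : ∀ j : Fin n, ∑ i, (G x).adjugate j i * G' i j v
      = ∑ σ : Equiv.Perm (Fin n), ((Equiv.Perm.sign σ : ℤ) : ℝ)
        * ((∏ k ∈ Finset.univ.erase j, G x (σ k) k) * G' (σ j) j v) := by
    intro j
    have e1 : ∑ i, (G x).adjugate j i * G' i j v
        = ((G x).updateCol j (fun i => G' i j v)).det := by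
      rw [← Matrix.cramer_apply, Matrix.cramer_eq_adjugate_mulVec]
      rfl
    rw [e1, Matrix.det_apply']
    refine Finset.sum_congr rfl fun σ _ => ?_
    congr 1
    rw [← Finset.mul_prod_erase Finset.univ _ (Finset.mem_univ j), mul_comm]
    congr 1
    · refine Finset.prod_congr rfl fun k hk => ?_
      rw [Matrix.updateCol_ne (Finset.ne_of_mem_erase hk)]
    · rw [Matrix.updateCol_self]
  have lhs : (∑ i, ∑ j, (G x).adjugate j i • G' i j) v
      = ∑ j, ∑ i, (G x).adjugate j i * G' i j v := by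
    rw [Finset.sum_comm]
    simp
  rw [lhs, Finset.sum_congr rfl fun j _ => key j, Finset.sum_comm]
  simp [Finset.mul_sum]

/-- Entries of the inverse matrix are differentiable. -/
theorem differentiableAt_inv {E : Type*} [NormedAddCommGroup E] [NormedSpace ℝ E] {n : ℕ}
    (G : E → Matrix (Fin n) (Fin n) ℝ) (x : E)
    (hG : ∀ i j, DifferentiableAt ℝ (fun y => G y i j) x) (hd : (G x).det ≠ 0) (i j : Fin n) :
    DifferentiableAt ℝ (fun y => (G y)⁻¹ i j) x := by
  have hdet : DifferentiableAt ℝ (fun y => (G y).det) x :=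
    (hasFDerivAt_det G (fun i j => fderiv ℝ (fun y => G y i j) x) x
      (fun i j => (hG i j).hasFDerivAt)).differentiableAt
  have hadj : DifferentiableAt ℝ (fun y => (G y).adjugate i j) x := by
    have e : (fun y => (G y).adjugate i j)
        = fun y => ((G y).updateRow j (Pi.single i 1)).det := by
      funext y
      rw [Matrix.adjugate_apply]
    rw [e]
    refine (hasFDerivAt_det (fun y => (G y).updateRow j (Pi.single i 1))
      (fun a b => fderiv ℝ (fun y => ((G y).updateRow j (Pi.single i 1)) a b) x) x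
      (fun a b => ?_)).differentiableAt
    apply DifferentiableAt.hasFDerivAt
    by_cases h : a = j
    · subst h
      simp only [Matrix.updateRow_self]
      exact differentiableAt_const _
    · simp only [Matrix.updateRow_ne h]
      exact hG a b
  have e : (fun y => (G y)⁻¹ i j) = fun y => ((G y).det)⁻¹ * (G y).adjugate i j := by
    funext y
    rw [Matrix.inv_def, Ring.inverse_eq_inv', Matrix.smul_apply, smul_eq_mul]
  rw [e]
  exact (hdet.inv hd).mul hadj


/-- V2. the mean curvature vector in divergence form -/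
theorem hV2 (hNR : StNR) (hFR : StFR) : StV2 := by
  intro n N f U hU hf hLI y hy
  have hfy : ContDiffAt ℝ 3 f y := hf.contDiffAt (hU.mem_nhds hy)
  obtain ⟨nr1, nr2, -, nr4, nr5, nr6, -, -⟩ := hNR n N f y (hLI y hy)
  -- second derivatives
  have hfd : DifferentiableAt ℝ (fderiv ℝ f) y :=
    (hfy.fderiv_right (m := 2) (by norm_num)).differentiableAt (by norm_num)
  have hE : ∀ j, HasFDerivAt (fun y' => dv1 f y' j)
      (fderiv ℝ (fun y' => fderiv ℝ f y' (ee j)) y) y := by
    intro j
    exact (hfd.clm_apply (differentiableAt_const (ee j))).hasFDerivAt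
  have hsymm : ∀ i j, dv2 f y i j = dv2 f y j i := by
    intro i j
    have h1 : ∀ a b : Fin n, dv2 f y a b = fderiv ℝ (fderiv ℝ f) y (ee a) (ee b) := by
      intro a b
      unfold dv2
      rw [fderiv_clm_apply hfd (differentiableAt_const _)]
      simp
    rw [h1, h1]
    exact (hfy.isSymmSndFDerivAt (by simp; norm_num)).eq _ _
  -- metric
  let G' : Fin n → Fin n → EE n →L[ℝ] ℝ := fun i j =>
    (fderivInnerCLM ℝ (dv1 f y i, dv1 f y j)).comp
      ((fderiv ℝ (fun y' => fderiv ℝ f y' (ee i)) y).prod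
        (fderiv ℝ (fun y' => fderiv ℝ f y' (ee j)) y))
  have hG : ∀ i j, HasFDerivAt (fun y' => gram f y' i j) (G' i j) y := fun i j =>
    (hE i).inner ℝ (hE j)
  have hG' : ∀ i j k, G' i j (ee k)
      = inner ℝ (dv1 f y i) (dv2 f y k j) + inner ℝ (dv2 f y k i) (dv1 f y j) := by
    intro i j k
    rfl
  obtain ⟨hpd, hunit, -⟩ := hFR n N f y (hLI y hy)
  have hdet : 0 < (gram f y).det := hpd.det_pos
  have hσ : 0 < sgm f y := Real.sqrt_pos.mpr hdet
  have hDder := hasFDerivAt_det (fun y' => gram f y') G' y hG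
  have hσder : HasFDerivAt (fun y' => sgm f y')
      ((1 / (2 * sgm f y)) • ∑ i, ∑ j, (gram f y).adjugate j i • G' i j) y :=
    hDder.sqrt hdet.ne'
  have hgs : ∀ i j, (gram f y)⁻¹ i j = (gram f y)⁻¹ j i := by
    intro i j
    have hs : (gram f y).IsSymm := by
      ext a b
      simp only [Matrix.transpose_apply, gram, Matrix.of_apply]
      exact real_inner_comm _ _
    have := (hs.inv).apply i j
    exact this.symm
  have hadj : ∀ i j, (gram f y).adjugate i j = sgm f y ^ 2 * (gram f y)⁻¹ i j := by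
    intro i j
    have hsq : sgm f y ^ 2 = (gram f y).det := Real.sq_sqrt hdet.le
    rw [hsq, Matrix.inv_def, Ring.inverse_eq_inv', Matrix.smul_apply, smul_eq_mul,
      mul_inv_cancel_left₀ hdet.ne']
  -- coefficients
  have hc : ∀ i j, DifferentiableAt ℝ (fun y' => sgm f y' * (gram f y')⁻¹ i j) y := fun i j =>
    hσder.differentiableAt.mul
      (differentiableAt_inv (fun y' => gram f y') y (fun a b => (hG a b).differentiableAt)
        hdet.ne' i j)
  set C : Fin n → Fin n → EE n →L[ℝ] ℝ := fun i j =>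
    fderiv ℝ (fun y' => sgm f y' * (gram f y')⁻¹ i j) y with hCdef
  have hC : ∀ i j, HasFDerivAt (fun y' => sgm f y' * (gram f y')⁻¹ i j) (C i j) y :=
    fun i j => (hc i j).hasFDerivAt
  -- the divergence
  have hterm : ∀ i j, fderiv ℝ (fun y' => (sgm f y' * (gram f y')⁻¹ i j) • dv1 f y' j) y (ee i)
      = (sgm f y * (gram f y)⁻¹ i j) • dv2 f y i j + C i j (ee i) • dv1 f y j := by
    intro i j
    rw [((hC i j).fun_smul (hE j)).fderiv]
    rfl
  simp only [hterm]
  set V : EE N := ∑ i, ∑ j, ((sgm f y * (gram f y)⁻¹ i j) • dv2 f y i j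
    + C i j (ee i) • dv1 f y j) with hV
  -- normality
  have hperp : ∀ k, (inner ℝ V (dv1 f y k) : ℝ) = 0 := by
    intro k
    -- derivative of  Σ_j σ g^ij g_jk = σ δ_ik
    have hid : ∀ i, ∑ j, (C i j (ee i) * gram f y j k
        + (sgm f y * (gram f y)⁻¹ i j) * G' j k (ee i))
        = if i = k then ((1 / (2 * sgm f y)) • ∑ a, ∑ b, (gram f y).adjugate b a • G' a b) (ee i)
          else 0 := by
      intro i
      have hL : HasFDerivAt (fun y' => ∑ j, (sgm f y' * (gram f y')⁻¹ i j) * gram f y' j k)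
          (∑ j, ((sgm f y * (gram f y)⁻¹ i j) • G' j k + gram f y j k • C i j)) y :=
        HasFDerivAt.fun_sum fun j _ => (hC i j).mul (hG j k)
      have hev : (fun y' => ∑ j, (sgm f y' * (gram f y')⁻¹ i j) * gram f y' j k)
          =ᶠ[𝓝 y] fun y' => if i = k then sgm f y' else 0 := by
        filter_upwards [hU.mem_nhds hy] with y' hy'
        have hu := (hFR n N f y' (hLI y' hy')).2.1
        have h1 : ((gram f y')⁻¹ * gram f y') i k = if i = k then 1 else 0 := by
          rw [Matrix.nonsing_inv_mul _ hu, Matrix.one_apply]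
        rw [Matrix.mul_apply] at h1
        have h2 : ∑ j, (sgm f y' * (gram f y')⁻¹ i j) * gram f y' j k
            = sgm f y' * ∑ j, (gram f y')⁻¹ i j * gram f y' j k := by
          rw [Finset.mul_sum]
          exact Finset.sum_congr rfl fun j _ => by ring
        rw [h2, h1]
        split_ifs <;> simp
      have hR : HasFDerivAt (fun y' => if i = k then sgm f y' else 0)
          (if i = k then ((1 / (2 * sgm f y)) • ∑ a, ∑ b, (gram f y).adjugate b a • G' a b)
            else 0) y := by
        split_ifs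
        · exact hσder
        · exact hasFDerivAt_const _ _
      have huniq := (hL.congr_of_eventuallyEq hev.symm).unique hR
      have := DFunLike.congr_fun huniq (ee i)
      rw [show (if i = k then ((1 / (2 * sgm f y)) • ∑ a, ∑ b, (gram f y).adjugate b a • G' a b)
            else (0 : EE n →L[ℝ] ℝ)) (ee i) = if i = k then
              ((1 / (2 * sgm f y)) • ∑ a, ∑ b, (gram f y).adjugate b a • G' a b) (ee i) else 0 by
          split_ifs <;> rfl] at this
      rw [← this]
      have hsa : (∑ j, ((sgm f y * (gram f y)⁻¹ i j) • G' j k + gram f y j k • C i j)) (ee i)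
          = ∑ j, ((sgm f y * (gram f y)⁻¹ i j) * G' j k (ee i)
            + gram f y j k * C i j (ee i)) := by
        simp
      rw [hsa]
      exact Finset.sum_congr rfl fun j _ => by ring
    have hsum : ∑ i, ∑ j, (C i j (ee i) * gram f y j k
        + (sgm f y * (gram f y)⁻¹ i j) * G' j k (ee i))
        = ((1 / (2 * sgm f y)) • ∑ a, ∑ b, (gram f y).adjugate b a • G' a b) (ee k) := by
      rw [Finset.sum_congr rfl fun i _ => hid i]
      simp
    have hσk : ((1 / (2 * sgm f y)) • ∑ a, ∑ b, (gram f y).adjugate b a • G' a b) (ee k)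
        = ∑ i, ∑ j, (sgm f y * (gram f y)⁻¹ i j) * inner ℝ (dv1 f y j) (dv2 f y i k) := by
      have e1 : ((1 / (2 * sgm f y)) • ∑ a, ∑ b, (gram f y).adjugate b a • G' a b) (ee k)
          = (1 / (2 * sgm f y)) * ∑ a, ∑ b, (gram f y).adjugate b a * G' a b (ee k) := by
        simp
      rw [e1]
      have e2 : ∑ a, ∑ b, (gram f y).adjugate b a * G' a b (ee k)
          = sgm f y ^ 2 * (∑ a, ∑ b, (gram f y)⁻¹ a b * inner ℝ (dv1 f y a) (dv2 f y k b)
            + ∑ a, ∑ b, (gram f y)⁻¹ a b * inner ℝ (dv2 f y k a) (dv1 f y b)) := by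
        rw [← Finset.sum_add_distrib, Finset.mul_sum]
        refine Finset.sum_congr rfl fun a _ => ?_
        rw [← Finset.sum_add_distrib, Finset.mul_sum]
        refine Finset.sum_congr rfl fun b _ => ?_
        rw [hadj, hgs b a, hG']
        ring
      have e3 : ∑ a, ∑ b, (gram f y)⁻¹ a b * inner ℝ (dv1 f y a) (dv2 f y k b)
          = ∑ i, ∑ j, (gram f y)⁻¹ i j * inner ℝ (dv1 f y j) (dv2 f y i k) := by
        rw [Finset.sum_comm]
        refine Finset.sum_congr rfl fun a _ => Finset.sum_congr rfl fun b _ => ?_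
        rw [hgs b a, hsymm k a]
      have e4 : ∑ a, ∑ b, (gram f y)⁻¹ a b * inner ℝ (dv2 f y k a) (dv1 f y b)
          = ∑ i, ∑ j, (gram f y)⁻¹ i j * inner ℝ (dv1 f y j) (dv2 f y i k) := by
        refine Finset.sum_congr rfl fun a _ => Finset.sum_congr rfl fun b _ => ?_
        rw [hsymm k a, real_inner_comm]
      have e5 : ∑ i, ∑ j, (sgm f y * (gram f y)⁻¹ i j) * inner ℝ (dv1 f y j) (dv2 f y i k)
          = sgm f y * ∑ i, ∑ j, (gram f y)⁻¹ i j * inner ℝ (dv1 f y j) (dv2 f y i k) := by
        rw [Finset.mul_sum]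
        refine Finset.sum_congr rfl fun i _ => ?_
        rw [Finset.mul_sum]
        exact Finset.sum_congr rfl fun j _ => by ring
      rw [e2, e3, e4, e5]
      field_simp
      ring
    have hVk : (inner ℝ V (dv1 f y k) : ℝ)
        = ∑ i, ∑ j, (C i j (ee i) * gram f y j k
        + (sgm f y * (gram f y)⁻¹ i j) * G' j k (ee i))
          - ∑ i, ∑ j, (sgm f y * (gram f y)⁻¹ i j) * inner ℝ (dv1 f y j) (dv2 f y i k) := by
      rw [hV, sum_inner, ← Finset.sum_sub_distrib]
      refine Finset.sum_congr rfl fun i _ => ?_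
      rw [sum_inner, ← Finset.sum_sub_distrib]
      refine Finset.sum_congr rfl fun j _ => ?_
      rw [inner_add_left, real_inner_smul_left, real_inner_smul_left, hG']
      have : gram f y j k = inner ℝ (dv1 f y j) (dv1 f y k) := rfl
      rw [this]
      ring
    rw [hVk, hsum, hσk, sub_self]
  -- conclusion
  rw [← nr4 V hperp, hV]
  let nl : EE N →ₗ[ℝ] EE N :=
    { toFun := nrm f y, map_add' := nr5, map_smul' := nr6 }
  have hnl : ∀ v, nrm f y v = nl v := fun v => rfl
  have htan : ∀ j, nl (dv1 f y j) = 0 := fun j =>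
    nr2 _ (Submodule.subset_span ⟨j, rfl⟩)
  rw [hnl, map_sum]
  unfold mcv
  rw [Finset.smul_sum]
  refine Finset.sum_congr rfl fun i _ => ?_
  rw [map_sum, Finset.smul_sum]
  refine Finset.sum_congr rfl fun j _ => ?_
  rw [map_add, map_smul, map_smul, htan, smul_zero, add_zero, mul_smul]
  rfl

end Helper99.PI
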