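import Pool.Agent.Helper35.PI.St2

/-!
Project PI (MP_b2fa09_gt), module LOC: the local maximum principle argument.
-/

set_option autoImplicit false

namespace Helper99.PI

open Helper35.PI
open scoped ContDiff Manifold Topology
open Set Filter

/-- Pointwise algebra: `s ≥ 0`, `r ≥ 0`, `s + r ≤ κ₁`. -/
theorem loc_alg {n X Y Z κ₁ : ℝ} (hn : 0 < n) (hY : 0 < Y) (h1 : Y ^ 2 ≤ n * Z)
    (h2 : Z ≤ X * Y) (h3 : X ≤ (1 / n + κ₁) * Y) :
    0 ≤ Z / Y ^ 2 - 1 / n ∧ 0 ≤ X / Y - Z / Y ^ 2 ∧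
      (Z / Y ^ 2 - 1 / n) + (X / Y - Z / Y ^ 2) ≤ κ₁ := by
  have hY2 : 0 < Y ^ 2 := by positivity
  refine ⟨?_, ?_, ?_⟩
  · rw [sub_nonneg, div_le_div_iff₀ hn hY2]
    linarith
  · rw [sub_nonneg, div_le_div_iff₀ hY2 hY]
    have : Z * Y ≤ (X * Y) * Y := mul_le_mul_of_nonneg_right h2 hY.le
    nlinarith
  · have : X / Y ≤ 1 / n + κ₁ := by
      rw [div_le_iff₀ hY]
      exact h3
    linarith

/-- Bounds for `Ψ = r / (κ - s - r)`. -/
theorem loc_psi {s r κ κ₁ : ℝ} (hκ : κ₁ < κ) (hs : 0 ≤ s) (hr : 0 ≤ r) (hsr : s + r ≤ κ₁) :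
    0 < κ - s - r ∧ 0 ≤ r / (κ - s - r) ∧ r / (κ - s - r) ≤ κ₁ / (κ - κ₁) := by
  have h0 : 0 < κ - s - r := by linarith
  have h1 : 0 < κ - κ₁ := by linarith
  refine ⟨h0, by positivity, ?_⟩
  rw [div_le_div_iff₀ h0 h1]
  have h2 : r * (κ - κ₁) ≤ κ₁ * (κ - κ₁) := mul_le_mul_of_nonneg_right (by linarith) h1.le
  have h3 : κ₁ * (κ - κ₁) ≤ κ₁ * (κ - s - r) :=
    mul_le_mul_of_nonneg_left (by linarith) (by linarith)
  linarith

/-- The test function. -/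
noncomputable def PhiF {M : Type} (n κ : ℝ) (k : ℕ) (f X Y Z : M × ℝ → ℝ) (R T₀ : ℝ)
    (z : M × ℝ) : ℝ :=
  max (R ^ 2 - f z ^ 2 - 2 * n * (z.2 - T₀)) 0 ^ 2 * (z.2 - T₀)
    * ((X z / Y z - Z z / Y z ^ 2)
        / (κ - (Z z / Y z ^ 2 - 1 / n) - (X z / Y z - Z z / Y z ^ 2))) ^ k * Y z

/-- The logarithmic test function. -/
noncomputable def LogF {M : Type} (n κ : ℝ) (k : ℕ) (f X Y Z : M × ℝ → ℝ) (R T₀ : ℝ)
    (z : M × ℝ) : ℝ :=
  2 * Real.log (R ^ 2 - f z ^ 2 - 2 * n * (z.2 - T₀)) + Real.log (z.2 - T₀)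
    + k * (Real.log (X z / Y z - Z z / Y z ^ 2)
        - Real.log (κ - (Z z / Y z ^ 2 - 1 / n) - (X z / Y z - Z z / Y z ^ 2)))
    + Real.log (Y z)

theorem log_PhiF {M : Type} (n κ : ℝ) (k : ℕ) (f X Y Z : M × ℝ → ℝ) (R T₀ : ℝ)
    (z : M × ℝ) (hW : 0 < R ^ 2 - f z ^ 2 - 2 * n * (z.2 - T₀)) (ht : 0 < z.2 - T₀)
    (hr : 0 < X z / Y z - Z z / Y z ^ 2)
    (hd : 0 < κ - (Z z / Y z ^ 2 - 1 / n) - (X z / Y z - Z z / Y z ^ 2)) (hY : 0 < Y z) :
    0 < PhiF n κ k f X Y Z R T₀ z ∧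
    Real.log (PhiF n κ k f X Y Z R T₀ z) = LogF n κ k f X Y Z R T₀ z := by
  unfold PhiF LogF
  rw [max_eq_left hW.le]
  have hΨ : 0 < (X z / Y z - Z z / Y z ^ 2)
        / (κ - (Z z / Y z ^ 2 - 1 / n) - (X z / Y z - Z z / Y z ^ 2)) := div_pos hr hd
  refine ⟨by positivity, ?_⟩
  rw [Real.log_mul (by positivity) hY.ne', Real.log_mul (by positivity) (by positivity),
    Real.log_mul (by positivity) ht.ne', Real.log_pow, Real.log_pow, Real.log_div hr.ne' hd.ne']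
  push_cast
  ring

theorem loc_core {M : Type} [TopologicalSpace M] (n : ℝ) (hn : 0 < n) (κ κ₁ : ℝ) (k : ℕ)
    (hκ : κ₁ < κ) (hk : 1 ≤ k) (f X Y Z : M × ℝ → ℝ)
    (hf : ContinuousOn f (univ ×ˢ Iio 0)) (hX : ContinuousOn X (univ ×ˢ Iio 0))
    (hY : ContinuousOn Y (univ ×ˢ Iio 0)) (hZ : ContinuousOn Z (univ ×ˢ Iio 0))
    (hY0 : ∀ z, 0 ≤ Y z)
    (h1 : ∀ z : M × ℝ, z.2 < 0 → Y z ^ 2 ≤ n * Z z)
    (h2 : ∀ z : M × ℝ, z.2 < 0 → Z z ≤ X z * Y z)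
    (h3 : ∀ z : M × ℝ, z.2 < 0 → X z ≤ (1 / n + κ₁) * Y z)
    (hK : ∀ a b R : ℝ, a < b → b < 0 → IsCompact {z : M × ℝ | z.2 ∈ Icc a b ∧ f z ≤ R})
    (hmx : ∀ (z₀ : M × ℝ) (T₀ R : ℝ), z₀.2 < 0 → T₀ < z₀.2 → 0 < R → 0 < Y z₀ →
      0 < X z₀ / Y z₀ - Z z₀ / Y z₀ ^ 2 →
      0 < R ^ 2 - f z₀ ^ 2 - 2 * n * (z₀.2 - T₀) →
      (∀ᶠ z in 𝓝 z₀, z.2 ≤ z₀.2 →
        LogF n κ k f X Y Z R T₀ z ≤ LogF n κ k f X Y Z R T₀ z₀) →
      Y z₀ ≤ 56 * R ^ 2 / (R ^ 2 - f z₀ ^ 2 - 2 * n * (z₀.2 - T₀)) ^ 2 + 1 / (z₀.2 - T₀)) :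
    ∀ z : M × ℝ, z.2 < 0 → 0 < Y z → X z / Y z - Z z / Y z ^ 2 ≤ 0 := by
  intro z hz hYz
  by_contra hcon
  push Not at hcon
  have hopen : IsOpen ((univ : Set M) ×ˢ Iio (0 : ℝ)) := isOpen_univ.prod isOpen_Iio
  have hfA : ∀ w : M × ℝ, w.2 < 0 → ContinuousAt f w := fun w hw =>
    hf.continuousAt (hopen.mem_nhds ⟨mem_univ _, hw⟩)
  have hXA : ∀ w : M × ℝ, w.2 < 0 → ContinuousAt X w := fun w hw =>
    hX.continuousAt (hopen.mem_nhds ⟨mem_univ _, hw⟩)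
  have hYA : ∀ w : M × ℝ, w.2 < 0 → ContinuousAt Y w := fun w hw =>
    hY.continuousAt (hopen.mem_nhds ⟨mem_univ _, hw⟩)
  have hZA : ∀ w : M × ℝ, w.2 < 0 → ContinuousAt Z w := fun w hw =>
    hZ.continuousAt (hopen.mem_nhds ⟨mem_univ _, hw⟩)
  -- pointwise facts
  have hpt : ∀ w : M × ℝ, w.2 < 0 → 0 < Y w →
      0 ≤ X w / Y w - Z w / Y w ^ 2 ∧
      0 < κ - (Z w / Y w ^ 2 - 1 / n) - (X w / Y w - Z w / Y w ^ 2) ∧
      0 ≤ (X w / Y w - Z w / Y w ^ 2)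
        / (κ - (Z w / Y w ^ 2 - 1 / n) - (X w / Y w - Z w / Y w ^ 2)) ∧
      (X w / Y w - Z w / Y w ^ 2)
        / (κ - (Z w / Y w ^ 2 - 1 / n) - (X w / Y w - Z w / Y w ^ 2)) ≤ κ₁ / (κ - κ₁) := by
    intro w hw hYw
    obtain ⟨a1, a2, a3⟩ := loc_alg hn hYw (h1 w hw) (h2 w hw) (h3 w hw)
    obtain ⟨b1, b2, b3⟩ := loc_psi hκ a1 a2 a3
    exact ⟨a2, b1, b2, b3⟩
  obtain ⟨c1, c2, c3, c4⟩ := hpt z hz hYz
  have hΨ₀ : 0 ≤ κ₁ / (κ - κ₁) := c3.trans c4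
  set Ψ₀ : ℝ := κ₁ / (κ - κ₁) with hΨ₀def
  have hΨz : 0 < (X z / Y z - Z z / Y z ^ 2)
        / (κ - (Z z / Y z ^ 2 - 1 / n) - (X z / Y z - Z z / Y z ^ 2)) := div_pos hcon c2
  set a : ℝ := ((X z / Y z - Z z / Y z ^ 2)
        / (κ - (Z z / Y z ^ 2 - 1 / n) - (X z / Y z - Z z / Y z ^ 2))) ^ k * Y z with hadef
  have ha : 0 < a := mul_pos (pow_pos hΨz k) hYz
  -- the main estimate for all large τ
  have key : ∀ τ : ℝ, 0 < τ → f z ^ 2 < n * τ →
      (n * τ) ^ 2 * τ * a ≤ Ψ₀ ^ k * (56 * (4 * n * τ) * τ + (4 * n * τ) ^ 2) := by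
    intro τ hτ hfz
    obtain ⟨R, hR, hR2⟩ : ∃ R : ℝ, 0 < R ∧ R ^ 2 = 4 * n * τ :=
      ⟨Real.sqrt (4 * n * τ), Real.sqrt_pos.mpr (by positivity), Real.sq_sqrt (by positivity)⟩
    have hT₀ : z.2 - τ < z.2 := by linarith
    set T₀ : ℝ := z.2 - τ with hT₀def
    have hKc := hK T₀ z.2 R hT₀ hz
    set K : Set (M × ℝ) := {w : M × ℝ | w.2 ∈ Icc T₀ z.2 ∧ f w ≤ R} with hKdef
    have hzK : z ∈ K := by
      refine ⟨⟨hT₀.le, le_refl _⟩, ?_⟩
      have hnτ : 0 < n * τ := by positivity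
      exact (abs_le_of_sq_le_sq' (by nlinarith) hR.le).2
    have hK0 : ∀ w ∈ K, w.2 < 0 := fun w hw => lt_of_le_of_lt hw.1.2 hz
    have hWle : ∀ w ∈ K, max (R ^ 2 - f w ^ 2 - 2 * n * (w.2 - T₀)) 0 ≤ R ^ 2 := by
      intro w hw
      refine max_le ?_ (by positivity)
      have : 0 ≤ n * (w.2 - T₀) := mul_nonneg hn.le (by linarith [hw.1.1])
      nlinarith [sq_nonneg (f w)]
    have htK : ∀ w ∈ K, 0 ≤ w.2 - T₀ ∧ w.2 - T₀ ≤ τ := by
      intro w hw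
      exact ⟨by linarith [hw.1.1], by have := hw.1.2; simp only [hT₀def]; linarith⟩
    -- bounds for Φ on K
    have hΦ0 : ∀ w ∈ K, 0 ≤ PhiF n κ k f X Y Z R T₀ w := by
      intro w hw
      unfold PhiF
      rcases (hY0 w).eq_or_lt with h | h
      · rw [← h]; simp
      · obtain ⟨d1, d2, d3, d4⟩ := hpt w (hK0 w hw) h
        have := (htK w hw).1
        positivity
    have hΦ1 : ∀ w ∈ K, PhiF n κ k f X Y Z R T₀ w ≤ (R ^ 2) ^ 2 * τ * Ψ₀ ^ k * Y w := by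
      intro w hw
      unfold PhiF
      rcases (hY0 w).eq_or_lt with h | h
      · rw [← h]; simp
      · obtain ⟨d1, d2, d3, d4⟩ := hpt w (hK0 w hw) h
        have e1 := (htK w hw).1
        have e2 := (htK w hw).2
        have e3 := hWle w hw
        gcongr
    have hΦc : ContinuousOn (PhiF n κ k f X Y Z R T₀) K := by
      intro w hw
      have hw0 := hK0 w hw
      rcases (hY0 w).eq_or_lt with h | h
      · have hΦw : PhiF n κ k f X Y Z R T₀ w = 0 := by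
          unfold PhiF
          rw [← h]; simp
        unfold ContinuousWithinAt
        rw [hΦw]
        refine squeeze_zero' (g := fun w' => (R ^ 2) ^ 2 * τ * Ψ₀ ^ k * Y w') ?_ ?_ ?_
        · filter_upwards [self_mem_nhdsWithin] with w' hw'
          exact hΦ0 w' hw'
        · filter_upwards [self_mem_nhdsWithin] with w' hw'
          exact hΦ1 w' hw'
        · have ht : Tendsto Y (𝓝[K] w) (𝓝 (Y w)) := (hYA w hw0).continuousWithinAt
          have := ht.const_mul ((R ^ 2) ^ 2 * τ * Ψ₀ ^ k)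
          rw [← h, mul_zero] at this
          exact this
      · obtain ⟨d1, d2, d3, d4⟩ := hpt w hw0 h
        have hfw := hfA w hw0
        have hXw := hXA w hw0
        have hYw := hYA w hw0
        have hZw := hZA w hw0
        have hs : ContinuousAt (fun w : M × ℝ => Z w / Y w ^ 2) w :=
          hZw.div (hYw.pow 2) (by positivity)
        have hr : ContinuousAt (fun w : M × ℝ => X w / Y w - Z w / Y w ^ 2) w :=
          (hXw.div hYw h.ne').sub hs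
        have hd : ContinuousAt (fun w : M × ℝ =>
            κ - (Z w / Y w ^ 2 - 1 / n) - (X w / Y w - Z w / Y w ^ 2)) w :=
          ((continuousAt_const).sub (hs.sub continuousAt_const)).sub hr
        have h2c : ContinuousAt (fun w : M × ℝ => w.2 - T₀) w :=
          continuousAt_snd.sub continuousAt_const
        have hWc : ContinuousAt (fun w : M × ℝ =>
            max (R ^ 2 - f w ^ 2 - 2 * n * (w.2 - T₀)) 0) w :=
          ((continuousAt_const.sub (hfw.pow 2)).sub (continuousAt_const.mul h2c)).max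
            continuousAt_const
        exact ((((hWc.pow 2).mul h2c).mul ((hr.div hd d2.ne').pow k)).mul
          hYw).continuousWithinAt
    obtain ⟨z', hz'K, hz'max⟩ := hKc.exists_isMaxOn ⟨z, hzK⟩ hΦc
    have hmax : ∀ w ∈ K, PhiF n κ k f X Y Z R T₀ w ≤ PhiF n κ k f X Y Z R T₀ z' :=
      fun w hw => hz'max hw
    -- value at z
    have hWz : n * τ ≤ R ^ 2 - f z ^ 2 - 2 * n * (z.2 - T₀) := by
      have : z.2 - T₀ = τ := by simp only [hT₀def]; ring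
      rw [this, hR2]; linarith
    have hΦz : (n * τ) ^ 2 * τ * a ≤ PhiF n κ k f X Y Z R T₀ z := by
      have hnτ : 0 < n * τ := by positivity
      have e0 : z.2 - T₀ = τ := by simp only [hT₀def]; ring
      have e1 : PhiF n κ k f X Y Z R T₀ z
          = (R ^ 2 - f z ^ 2 - 2 * n * (z.2 - T₀)) ^ 2 * τ * a := by
        unfold PhiF
        rw [max_eq_left (hnτ.le.trans hWz), hadef, e0]
        ring
      rw [e1]
      have e2 : (n * τ) ^ 2 ≤ (R ^ 2 - f z ^ 2 - 2 * n * (z.2 - T₀)) ^ 2 :=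
        pow_le_pow_left₀ hnτ.le hWz 2
      exact mul_le_mul_of_nonneg_right (mul_le_mul_of_nonneg_right e2 hτ.le) ha.le
    have hΦpos : 0 < PhiF n κ k f X Y Z R T₀ z' :=
      lt_of_lt_of_le (lt_of_lt_of_le (by positivity) hΦz) (hmax z hzK)
    -- positivity at z'
    have hz'0 := hK0 z' hz'K
    have hY' : 0 < Y z' := by
      rcases (hY0 z').eq_or_lt with h | h
      · exfalso
        unfold PhiF at hΦpos
        rw [← h] at hΦpos
        simp at hΦpos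
      · exact h
    have hW' : 0 < R ^ 2 - f z' ^ 2 - 2 * n * (z'.2 - T₀) := by
      by_contra hh
      push Not at hh
      unfold PhiF at hΦpos
      rw [max_eq_right hh] at hΦpos
      simp at hΦpos
    have ht' : 0 < z'.2 - T₀ := by
      rcases (htK z' hz'K).1.eq_or_lt with h | h
      · exfalso
        unfold PhiF at hΦpos
        rw [← h] at hΦpos
        simp at hΦpos
      · exact h
    obtain ⟨d1, d2, d3, d4⟩ := hpt z' hz'0 hY'
    have hr' : 0 < X z' / Y z' - Z z' / Y z' ^ 2 := by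
      rcases d1.eq_or_lt with h | h
      · exfalso
        unfold PhiF at hΦpos
        rw [← h, zero_div, zero_pow (by omega)] at hΦpos
        simp at hΦpos
      · exact h
    -- local maximum of the logarithm
    have hloc : ∀ᶠ w in 𝓝 z', w.2 ≤ z'.2 →
        LogF n κ k f X Y Z R T₀ w ≤ LogF n κ k f X Y Z R T₀ z' := by
      have hfw := hfA z' hz'0
      have hXw := hXA z' hz'0
      have hYw := hYA z' hz'0
      have hZw := hZA z' hz'0
      have h2c : ContinuousAt (fun w : M × ℝ => w.2 - T₀) z' :=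
        continuousAt_snd.sub continuousAt_const
      have hWc : ContinuousAt (fun w : M × ℝ =>
          R ^ 2 - f w ^ 2 - 2 * n * (w.2 - T₀)) z' :=
        (continuousAt_const.sub (hfw.pow 2)).sub (continuousAt_const.mul h2c)
      have hs : ContinuousAt (fun w : M × ℝ => Z w / Y w ^ 2) z' :=
        hZw.div (hYw.pow 2) (by positivity)
      have hr : ContinuousAt (fun w : M × ℝ => X w / Y w - Z w / Y w ^ 2) z' :=
        (hXw.div hYw hY'.ne').sub hs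
      have e1 := h2c.eventually (lt_mem_nhds ht')
      have e2 := hWc.eventually (lt_mem_nhds hW')
      have e3 := hYw.eventually (lt_mem_nhds hY')
      have e4 := hr.eventually (lt_mem_nhds hr')
      filter_upwards [e1, e2, e3, e4] with w g1 g2 g3 g4 hw2
      have hwK : w ∈ K := by
        refine ⟨⟨by linarith, hw2.trans hz'K.1.2⟩, ?_⟩
        have : 0 ≤ n * (w.2 - T₀) := mul_nonneg hn.le g1.le
        exact (abs_le_of_sq_le_sq' (by nlinarith) hR.le).2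
      obtain ⟨f1, f2, f3, f4⟩ := hpt w (hK0 w hwK) g3
      obtain ⟨k1, k2⟩ := log_PhiF n κ k f X Y Z R T₀ w g2 g1 g4 f2 g3
      obtain ⟨l1, l2⟩ := log_PhiF n κ k f X Y Z R T₀ z' hW' ht' hr' d2 hY'
      rw [← k2, ← l2]
      exact Real.log_le_log k1 (hmax w hwK)
    have hfin := hmx z' T₀ R hz'0 (by linarith) hR hY' hr' hW' hloc
    -- conclusion
    have hW'le : R ^ 2 - f z' ^ 2 - 2 * n * (z'.2 - T₀) ≤ R ^ 2 :=
      (le_max_left _ 0).trans (hWle z' hz'K)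
    set W' : ℝ := R ^ 2 - f z' ^ 2 - 2 * n * (z'.2 - T₀) with hW'def
    have hΦ' : PhiF n κ k f X Y Z R T₀ z' ≤ Ψ₀ ^ k * (56 * R ^ 2 * τ + (R ^ 2) ^ 2) := by
      have e1 : PhiF n κ k f X Y Z R T₀ z' = W' ^ 2 * (z'.2 - T₀)
          * ((X z' / Y z' - Z z' / Y z' ^ 2)
            / (κ - (Z z' / Y z' ^ 2 - 1 / n) - (X z' / Y z' - Z z' / Y z' ^ 2))) ^ k * Y z' := by
        unfold PhiF
        rw [← hW'def, max_eq_left hW'.le]
      rw [e1]
      set Ψ' : ℝ := (X z' / Y z' - Z z' / Y z' ^ 2)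
            / (κ - (Z z' / Y z' ^ 2 - 1 / n) - (X z' / Y z' - Z z' / Y z' ^ 2)) with hΨ'
      have e2 : W' ^ 2 * (z'.2 - T₀) * Ψ' ^ k * Y z'
          ≤ W' ^ 2 * (z'.2 - T₀) * Ψ₀ ^ k * (56 * R ^ 2 / W' ^ 2 + 1 / (z'.2 - T₀)) := by
        have := ht'.le
        gcongr
      refine e2.trans ?_
      have e3 : W' ^ 2 * (z'.2 - T₀) * Ψ₀ ^ k * (56 * R ^ 2 / W' ^ 2 + 1 / (z'.2 - T₀))
          = Ψ₀ ^ k * (56 * R ^ 2 * (z'.2 - T₀) + W' ^ 2) := by
        field_simp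
      rw [e3]
      have e4 := (htK z' hz'K).2
      have e5 : W' ^ 2 ≤ (R ^ 2) ^ 2 := pow_le_pow_left₀ hW'.le hW'le 2
      have : 0 ≤ Ψ₀ ^ k := pow_nonneg hΨ₀ k
      gcongr
    have := hΦz.trans ((hmax z hzK).trans hΦ')
    rw [hR2] at this
    exact this
  -- contradiction for large τ
  set C : ℝ := Ψ₀ ^ k * (56 * (4 * n) + (4 * n) ^ 2) with hC
  have hC0 : 0 ≤ C := mul_nonneg (pow_nonneg hΨ₀ k) (by positivity)
  have hn2 : 0 < n ^ 2 * a := by positivity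
  set τ : ℝ := C / (n ^ 2 * a) + f z ^ 2 / n + 1 with hτ
  have hq1 : 0 ≤ C / (n ^ 2 * a) := by positivity
  have hq2 : 0 ≤ f z ^ 2 / n := by positivity
  have hτ0 : 0 < τ := by linarith
  have hτf : f z ^ 2 < n * τ := by
    have : n * (f z ^ 2 / n) = f z ^ 2 := by field_simp
    nlinarith
  have h := key τ hτ0 hτf
  have h' : τ ^ 2 * (n ^ 2 * a * τ) ≤ τ ^ 2 * C := by
    rw [hC]
    nlinarith
  have h'' : n ^ 2 * a * τ ≤ C := le_of_mul_le_mul_left h' (by positivity)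
  have h3' : n ^ 2 * a * (C / (n ^ 2 * a)) = C := by field_simp
  have : n ^ 2 * a * τ = C + n ^ 2 * a * (f z ^ 2 / n + 1) := by
    rw [hτ, mul_add, mul_add, h3']; ring
  have hpos : 0 < n ^ 2 * a * (f z ^ 2 / n + 1) := by positivity
  linarith

/-- LOC. the local maximum principle: `Â = 0` -/
theorem hLOC (hMX : StMX) (hI4 : StI4) (hPO : StPO) : StLOC := by
  intro n N hn κ κ₁ k hκ hk hKI M _ _ _ _ F hF hprop hpin p t ht
  have hn0 : (0 : ℝ) < n := by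
    have : 0 < n := by omega
    exact_mod_cast this
  obtain ⟨i1, i2, i3, i4⟩ := hI4 n N M F hF
  have hpo := hPO n N (by omega) M F hF
  have core := loc_core (M := M) (n : ℝ) hn0 κ κ₁ k hκ hk
    (fun z => ‖F z.1 z.2‖) (fun z => AA (n := n) F z.1 z.2)
    (fun z => ‖HH (n := n) F z.1 z.2‖ ^ 2) (fun z => ZF (n := n) F z.1 z.2)
    i1.norm i3 (i2.norm.pow 2) i4 (fun z => by positivity)
    (fun z hz => (hpo z.1 z.2 hz).2.2.1) (fun z hz => (hpo z.1 z.2 hz).2.2.2.1)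
    (fun z hz => hpin z.1 z.2 hz) hprop
    (by
      intro z₀ T₀ R g1 g2 g3 g4 g5 g6 g7
      have hHne : HH (n := n) F z₀.1 z₀.2 ≠ 0 := by
        intro h0
        simp only [h0, norm_zero] at g4
        norm_num at g4
      obtain ⟨a1, a2, a3⟩ := loc_alg hn0 g4 (hpo z₀.1 z₀.2 g1).2.2.1
        (hpo z₀.1 z₀.2 g1).2.2.2.1 (hpin z₀.1 z₀.2 g1)
      exact hMX n N hn κ κ₁ k hκ hKI M F hF z₀.1 z₀.2 T₀ R g1 g2 g3 hHne g5 a3 g6 g7)
  obtain ⟨q0, q1, q2, q3, q4, q5⟩ := hpo p t ht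
  rcases (sq_nonneg ‖HH (n := n) F p t‖).eq_or_lt with h | h
  · rw [← h, mul_zero] at q3 ⊢
    linarith
  · have hc := core (p, t) ht h
    simp only at hc
    have h2 : (0 : ℝ) < (‖HH (n := n) F p t‖ ^ 2) ^ 2 := by positivity
    rw [sub_nonpos, div_le_div_iff₀ h h2] at hc
    refine le_antisymm ?_ q3
    have hc' : ‖HH (n := n) F p t‖ ^ 2 * (AA (n := n) F p t * ‖HH (n := n) F p t‖ ^ 2)
        ≤ ‖HH (n := n) F p t‖ ^ 2 * ZF (n := n) F p t := by nlinarith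
    exact le_of_mul_le_mul_left hc' h

end Helper99.PI
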