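import Pool.Agent.Helper35.PI.St4
import Pool.Agent.Helper99.PI.M_LOC

/-!
Project PI (MP_b2fa09_gt), module LOCR: the local maximum principle argument under right
properness.
-/

set_option autoImplicit false

namespace Helper99.PI

open Helper35.PI
open scoped ContDiff Manifold Topology
open Set Filter

theorem loc_coreR {M : Type} [TopologicalSpace M] [T2Space M] (n : ℝ) (hn : 0 < n) (κ κ₁ : ℝ) (k : ℕ)
    (hκ : κ₁ < κ) (hk : 1 ≤ k) (f X Y Z : M × ℝ → ℝ)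
    (hf : ContinuousOn f (univ ×ˢ Iio 0)) (hX : ContinuousOn X (univ ×ˢ Iio 0))
    (hY : ContinuousOn Y (univ ×ˢ Iio 0)) (hZ : ContinuousOn Z (univ ×ˢ Iio 0))
    (hY0 : ∀ z, 0 ≤ Y z)
    (h1 : ∀ z : M × ℝ, z.2 < 0 → Y z ^ 2 ≤ n * Z z)
    (h2 : ∀ z : M × ℝ, z.2 < 0 → Z z ≤ X z * Y z)
    (h3 : ∀ z : M × ℝ, z.2 < 0 → X z ≤ (1 / n + κ₁) * Y z)
    (hK : ∀ t R : ℝ, t < 0 → ∃ K : Set M, IsCompact K ∧ ∃ η > 0, ∀ s : ℝ, t ≤ s →
      s ≤ t + η → s < 0 → ∀ q : M, f (q, s) ≤ R → q ∈ K)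
    (hmx : ∀ (z₀ : M × ℝ) (T₀ R : ℝ), z₀.2 < 0 → T₀ < z₀.2 → 0 < R → 0 < Y z₀ →
      0 < X z₀ / Y z₀ - Z z₀ / Y z₀ ^ 2 →
      0 < R ^ 2 - f z₀ ^ 2 - 2 * n * (z₀.2 - T₀) →
      (∀ᶠ z in 𝓝 z₀, z.2 ≤ z₀.2 →
        LogF n κ k f X Y Z R T₀ z ≤ LogF n κ k f X Y Z R T₀ z₀) →
      Y z₀ ≤ 56 * R ^ 2 / (R ^ 2 - f z₀ ^ 2 - 2 * n * (z₀.2 - T₀)) ^ 2 + 1 / (z₀.2 - T₀)) :
    ∀ z : M × ℝ, z.2 < 0 → 0 < Y z → X z / Y z - Z z / Y z ^ 2 ≤ 0 := by
  intro z hz hYz
  by_contra hcon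
  push Not at hcon
  have hopen : IsOpen ((univ : Set M) ×ˢ Iio (0 : ℝ)) := isOpen_univ.prod isOpen_Iio
  have hfA : ∀ w : M × ℝ, w.2 < 0 → ContinuousAt f w := fun w hw =>
    hf.continuousAt (hopen.mem_nhds ⟨mem_univ _, hw⟩)
  have hXA : ∀ w : M × ℝ, w.2 < 0 → ContinuousAt X w := fun w hw =>
    hX.continuousAt (hopen.mem_nhds ⟨mem_univ _, hw⟩)
  have hYA : ∀ w : M × ℝ, w.2 < 0 → ContinuousAt Y w := fun w hw =>
    hY.continuousAt (hopen.mem_nhds ⟨mem_univ _, hw⟩)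
  have hZA : ∀ w : M × ℝ, w.2 < 0 → ContinuousAt Z w := fun w hw =>
    hZ.continuousAt (hopen.mem_nhds ⟨mem_univ _, hw⟩)
  -- pointwise facts
  have hpt : ∀ w : M × ℝ, w.2 < 0 → 0 < Y w →
      0 ≤ X w / Y w - Z w / Y w ^ 2 ∧
      0 < κ - (Z w / Y w ^ 2 - 1 / n) - (X w / Y w - Z w / Y w ^ 2) ∧
      0 ≤ (X w / Y w - Z w / Y w ^ 2)
        / (κ - (Z w / Y w ^ 2 - 1 / n) - (X w / Y w - Z w / Y w ^ 2)) ∧
      (X w / Y w - Z w / Y w ^ 2)
        / (κ - (Z w / Y w ^ 2 - 1 / n) - (X w / Y w - Z w / Y w ^ 2)) ≤ κ₁ / (κ - κ₁) := by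
    intro w hw hYw
    obtain ⟨a1, a2, a3⟩ := loc_alg hn hYw (h1 w hw) (h2 w hw) (h3 w hw)
    obtain ⟨b1, b2, b3⟩ := loc_psi hκ a1 a2 a3
    exact ⟨a2, b1, b2, b3⟩
  obtain ⟨c1, c2, c3, c4⟩ := hpt z hz hYz
  have hΨ₀ : 0 ≤ κ₁ / (κ - κ₁) := c3.trans c4
  set Ψ₀ : ℝ := κ₁ / (κ - κ₁) with hΨ₀def
  have hΨz : 0 < (X z / Y z - Z z / Y z ^ 2)
        / (κ - (Z z / Y z ^ 2 - 1 / n) - (X z / Y z - Z z / Y z ^ 2)) := div_pos hcon c2
  set a : ℝ := ((X z / Y z - Z z / Y z ^ 2)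
        / (κ - (Z z / Y z ^ 2 - 1 / n) - (X z / Y z - Z z / Y z ^ 2))) ^ k * Y z with hadef
  have ha : 0 < a := mul_pos (pow_pos hΨz k) hYz
  -- the main estimate for all large τ
  have key : ∀ τ : ℝ, 0 < τ → f z ^ 2 < n * τ →
      (n * τ) ^ 2 * τ * a ≤ Ψ₀ ^ k * (56 * (4 * n * τ) * τ + (4 * n * τ) ^ 2) := by
    intro τ hτ hfz
    obtain ⟨R, hR, hR2⟩ : ∃ R : ℝ, 0 < R ∧ R ^ 2 = 4 * n * τ :=
      ⟨Real.sqrt (4 * n * τ), Real.sqrt_pos.mpr (by positivity), Real.sq_sqrt (by positivity)⟩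
    have hT₀ : z.2 - τ < z.2 := by linarith
    set T₀ : ℝ := z.2 - τ with hT₀def
    set K : Set (M × ℝ) := {w : M × ℝ | w.2 ∈ Icc T₀ z.2} with hKdef
    have hzK : z ∈ K := ⟨hT₀.le, le_refl _⟩
    have hK0 : ∀ w ∈ K, w.2 < 0 := fun w hw => lt_of_le_of_lt hw.2 hz
    have hWle : ∀ w ∈ K, max (R ^ 2 - f w ^ 2 - 2 * n * (w.2 - T₀)) 0 ≤ R ^ 2 := by
      intro w hw
      refine max_le ?_ (by positivity)
      have : 0 ≤ n * (w.2 - T₀) := mul_nonneg hn.le (by linarith [hw.1])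
      nlinarith [sq_nonneg (f w)]
    have htK : ∀ w ∈ K, 0 ≤ w.2 - T₀ ∧ w.2 - T₀ ≤ τ := by
      intro w hw
      exact ⟨by linarith [hw.1], by have := hw.2; simp only [hT₀def]; linarith⟩
    have hfR : ∀ w ∈ K, 0 < PhiF n κ k f X Y Z R T₀ w → f w ≤ R := by
      intro w hw hpos
      have hW : 0 < R ^ 2 - f w ^ 2 - 2 * n * (w.2 - T₀) := by
        by_contra hh
        push Not at hh
        unfold PhiF at hpos
        rw [max_eq_right hh] at hpos
        simp at hpos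
      have : 0 ≤ n * (w.2 - T₀) := mul_nonneg hn.le (htK w hw).1
      exact (abs_le_of_sq_le_sq' (by nlinarith) hR.le).2
    -- bounds for Φ on K
    have hΦ0 : ∀ w ∈ K, 0 ≤ PhiF n κ k f X Y Z R T₀ w := by
      intro w hw
      unfold PhiF
      rcases (hY0 w).eq_or_lt with h | h
      · rw [← h]; simp
      · obtain ⟨d1, d2, d3, d4⟩ := hpt w (hK0 w hw) h
        have := (htK w hw).1
        positivity
    have hΦ1 : ∀ w ∈ K, PhiF n κ k f X Y Z R T₀ w ≤ (R ^ 2) ^ 2 * τ * Ψ₀ ^ k * Y w := by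
      intro w hw
      unfold PhiF
      rcases (hY0 w).eq_or_lt with h | h
      · rw [← h]; simp
      · obtain ⟨d1, d2, d3, d4⟩ := hpt w (hK0 w hw) h
        have e1 := (htK w hw).1
        have e2 := (htK w hw).2
        have e3 := hWle w hw
        gcongr
    have hΦc : ContinuousOn (PhiF n κ k f X Y Z R T₀) K := by
      intro w hw
      have hw0 := hK0 w hw
      rcases (hY0 w).eq_or_lt with h | h
      · have hΦw : PhiF n κ k f X Y Z R T₀ w = 0 := by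
          unfold PhiF
          rw [← h]; simp
        unfold ContinuousWithinAt
        rw [hΦw]
        refine squeeze_zero' (g := fun w' => (R ^ 2) ^ 2 * τ * Ψ₀ ^ k * Y w') ?_ ?_ ?_
        · filter_upwards [self_mem_nhdsWithin] with w' hw'
          exact hΦ0 w' hw'
        · filter_upwards [self_mem_nhdsWithin] with w' hw'
          exact hΦ1 w' hw'
        · have ht : Tendsto Y (𝓝[K] w) (𝓝 (Y w)) := (hYA w hw0).continuousWithinAt
          have := ht.const_mul ((R ^ 2) ^ 2 * τ * Ψ₀ ^ k)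
          rw [← h, mul_zero] at this
          exact this
      · obtain ⟨d1, d2, d3, d4⟩ := hpt w hw0 h
        have hfw := hfA w hw0
        have hXw := hXA w hw0
        have hYw := hYA w hw0
        have hZw := hZA w hw0
        have hs : ContinuousAt (fun w : M × ℝ => Z w / Y w ^ 2) w :=
          hZw.div (hYw.pow 2) (by positivity)
        have hr : ContinuousAt (fun w : M × ℝ => X w / Y w - Z w / Y w ^ 2) w :=
          (hXw.div hYw h.ne').sub hs
        have hd : ContinuousAt (fun w : M × ℝ =>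
            κ - (Z w / Y w ^ 2 - 1 / n) - (X w / Y w - Z w / Y w ^ 2)) w :=
          ((continuousAt_const).sub (hs.sub continuousAt_const)).sub hr
        have h2c : ContinuousAt (fun w : M × ℝ => w.2 - T₀) w :=
          continuousAt_snd.sub continuousAt_const
        have hWc : ContinuousAt (fun w : M × ℝ =>
            max (R ^ 2 - f w ^ 2 - 2 * n * (w.2 - T₀)) 0) w :=
          ((continuousAt_const.sub (hfw.pow 2)).sub (continuousAt_const.mul h2c)).max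
            continuousAt_const
        exact ((((hWc.pow 2).mul h2c).mul ((hr.div hd d2.ne').pow k)).mul
          hYw).continuousWithinAt
    -- value at z
    have hWz : n * τ ≤ R ^ 2 - f z ^ 2 - 2 * n * (z.2 - T₀) := by
      have : z.2 - T₀ = τ := by simp only [hT₀def]; ring
      rw [this, hR2]; linarith
    have hΦz : (n * τ) ^ 2 * τ * a ≤ PhiF n κ k f X Y Z R T₀ z := by
      have hnτ : 0 < n * τ := by positivity
      have e0 : z.2 - T₀ = τ := by simp only [hT₀def]; ring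
      have e1 : PhiF n κ k f X Y Z R T₀ z
          = (R ^ 2 - f z ^ 2 - 2 * n * (z.2 - T₀)) ^ 2 * τ * a := by
        unfold PhiF
        rw [max_eq_left (hnτ.le.trans hWz), hadef, e0]
        ring
      rw [e1]
      have e2 : (n * τ) ^ 2 ≤ (R ^ 2 - f z ^ 2 - 2 * n * (z.2 - T₀)) ^ 2 :=
        pow_le_pow_left₀ hnτ.le hWz 2
      exact mul_le_mul_of_nonneg_right (mul_le_mul_of_nonneg_right e2 hτ.le) ha.le
    -- the bound, by contradiction
    have hwin : PhiF n κ k f X Y Z R T₀ z ≤ Ψ₀ ^ k * (56 * R ^ 2 * τ + (R ^ 2) ^ 2) := by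
      by_contra hbig
      push Not at hbig
      set v : ℝ := PhiF n κ k f X Y Z R T₀ z with hvdef
      have hv0 : 0 < v := lt_of_le_of_lt (by positivity) hbig
      obtain ⟨m, hmT, q₁, hq₁, hmin⟩ : ∃ m : ℝ, m ∈ Icc T₀ z.2 ∧ ∃ q₁ : M,
          v ≤ PhiF n κ k f X Y Z R T₀ (q₁, m) ∧ ∀ (q : M) (s : ℝ), s ∈ Icc T₀ z.2 → v ≤ PhiF n κ k f X Y Z R T₀ (q, s) → m ≤ s := by
        let Q : Set ℝ := {s : ℝ | s ∈ Icc T₀ z.2 ∧ ∃ q : M, v ≤ PhiF n κ k f X Y Z R T₀ (q, s)}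
        have hQz : z.2 ∈ Q := ⟨⟨hT₀.le, le_refl _⟩, z.1, le_refl _⟩
        have hQb : BddBelow Q := ⟨T₀, fun s hs => hs.1.1⟩
        set s₀ : ℝ := sInf Q with hs₀def
        have hs₀z : s₀ ≤ z.2 := csInf_le hQb hQz
        have hs₀T : T₀ ≤ s₀ := le_csInf ⟨_, hQz⟩ (fun s hs => hs.1.1)
        obtain ⟨C₀, hC₀, η, hη, hC₀R⟩ := hK s₀ R (lt_of_le_of_lt hs₀z hz)
        obtain ⟨s₁, hs₁Q, hs₁⟩ := exists_lt_of_csInf_lt ⟨_, hQz⟩
          (show sInf Q < s₀ + η by rw [← hs₀def]; linarith)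
        let S : Set (M × ℝ) := C₀ ×ˢ (Icc s₀ (s₀ + η) ∩ Icc T₀ z.2)
        have hSc : IsCompact S := hC₀.prod (isCompact_Icc.inter_right isClosed_Icc)
        have hSK : S ⊆ K := fun w hw => hw.2.2
        have hS' : IsCompact (S ∩ (PhiF n κ k f X Y Z R T₀) ⁻¹' Ici v) := by
          have hcl := (hΦc.mono hSK).preimage_isClosed_of_isClosed hSc.isClosed
            (isClosed_Ici (a := v))
          exact hSc.of_isClosed_subset hcl inter_subset_left
        have hI : IsCompact (Prod.snd '' (S ∩ (PhiF n κ k f X Y Z R T₀) ⁻¹' Ici v)) := hS'.image continuous_snd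
        have hmem : ∀ (q : M) (s : ℝ), s ∈ Icc T₀ z.2 → s₀ ≤ s → s ≤ s₀ + η →
            v ≤ PhiF n κ k f X Y Z R T₀ (q, s) → (q, s) ∈ S ∩ (PhiF n κ k f X Y Z R T₀) ⁻¹' Ici v := by
          intro q s hs h1 h2 h3
          exact ⟨⟨hC₀R s h1 h2 (lt_of_le_of_lt hs.2 hz) q
            (hfR (q, s) hs (lt_of_lt_of_le hv0 h3)), ⟨h1, h2⟩, hs⟩, h3⟩
        obtain ⟨hs₁I, q₁, hq₁⟩ := hs₁Q
        have hs₁0 : s₀ ≤ s₁ := csInf_le hQb ⟨hs₁I, q₁, hq₁⟩
        obtain ⟨m, hm, hml⟩ := hI.exists_isLeast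
          ⟨s₁, (q₁, s₁), hmem q₁ s₁ hs₁I hs₁0 hs₁.le hq₁, rfl⟩
        obtain ⟨⟨q₂, m'⟩, hq₂, hmm⟩ := hm
        simp only at hmm
        subst hmm
        refine ⟨m', hq₂.1.2.2, q₂, hq₂.2, ?_⟩
        intro q s hs hqs
        rcases le_or_gt s (s₀ + η) with h | h
        · exact hml ⟨(q, s), hmem q s hs (csInf_le hQb ⟨hs, q, hqs⟩) h hqs, rfl⟩
        · exact (hq₂.1.2.1.2).trans h.le
      -- maximal point at time m
      have hm0 : m < 0 := lt_of_le_of_lt hmT.2 hz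
      obtain ⟨C₁, hC₁, η₁, hη₁, hC₁R⟩ := hK m R hm0
      have hq₁C : q₁ ∈ C₁ := hC₁R m le_rfl (by linarith) hm0 q₁
        (hfR (q₁, m) hmT (lt_of_lt_of_le hv0 hq₁))
      have hcc : ContinuousOn (fun q : M => PhiF n κ k f X Y Z R T₀ (q, m)) C₁ :=
        hΦc.comp (by fun_prop) (fun q _ => hmT)
      obtain ⟨q₀, hq₀C, hq₀max⟩ := hC₁.exists_isMaxOn ⟨q₁, hq₁C⟩ hcc
      have hv' : v ≤ PhiF n κ k f X Y Z R T₀ (q₀, m) := hq₁.trans (hq₀max hq₁C)
      have hmaxm : ∀ q : M, PhiF n κ k f X Y Z R T₀ (q, m) ≤ PhiF n κ k f X Y Z R T₀ (q₀, m) := by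
        intro q
        by_cases hq : q ∈ C₁
        · exact hq₀max hq
        · have hneg : PhiF n κ k f X Y Z R T₀ (q, m) ≤ 0 := by
            by_contra hh
            push Not at hh
            exact hq (hC₁R m le_rfl (by linarith) hm0 q (hfR (q, m) hmT hh))
          exact hneg.trans (hv0.le.trans hv')
      obtain ⟨z', hz'def⟩ : ∃ z' : M × ℝ, z' = (q₀, m) := ⟨_, rfl⟩
      rw [← hz'def] at hv'
      have hz'K : z' ∈ K := by rw [hz'def]; exact hmT
      have hmax : ∀ w ∈ K, w.2 ≤ z'.2 → PhiF n κ k f X Y Z R T₀ w ≤ PhiF n κ k f X Y Z R T₀ z' := by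
        intro w hw hw2
        rw [hz'def] at hw2
        rcases hw2.eq_or_lt with h | h
        · have hw' : w = (w.1, m) := Prod.ext rfl h
          rw [hw', hz'def]
          exact hmaxm w.1
        · by_contra hh
          push Not at hh
          exact absurd (hmin w.1 w.2 hw (hv'.trans hh.le)) (not_le.mpr h)
      have hΦpos : 0 < PhiF n κ k f X Y Z R T₀ z' := lt_of_lt_of_le hv0 hv'
      -- positivity at z'
      have hz'0 := hK0 z' hz'K
      have hY' : 0 < Y z' := by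
        rcases (hY0 z').eq_or_lt with h | h
        · exfalso
          unfold PhiF at hΦpos
          rw [← h] at hΦpos
          simp at hΦpos
        · exact h
      have hW' : 0 < R ^ 2 - f z' ^ 2 - 2 * n * (z'.2 - T₀) := by
        by_contra hh
        push Not at hh
        unfold PhiF at hΦpos
        rw [max_eq_right hh] at hΦpos
        simp at hΦpos
      have ht' : 0 < z'.2 - T₀ := by
        rcases (htK z' hz'K).1.eq_or_lt with h | h
        · exfalso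
          unfold PhiF at hΦpos
          rw [← h] at hΦpos
          simp at hΦpos
        · exact h
      obtain ⟨d1, d2, d3, d4⟩ := hpt z' hz'0 hY'
      have hr' : 0 < X z' / Y z' - Z z' / Y z' ^ 2 := by
        rcases d1.eq_or_lt with h | h
        · exfalso
          unfold PhiF at hΦpos
          rw [← h, zero_div, zero_pow (by omega)] at hΦpos
          simp at hΦpos
        · exact h
      -- local maximum of the logarithm
      have hloc : ∀ᶠ w in 𝓝 z', w.2 ≤ z'.2 →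
          LogF n κ k f X Y Z R T₀ w ≤ LogF n κ k f X Y Z R T₀ z' := by
        have hfw := hfA z' hz'0
        have hXw := hXA z' hz'0
        have hYw := hYA z' hz'0
        have hZw := hZA z' hz'0
        have h2c : ContinuousAt (fun w : M × ℝ => w.2 - T₀) z' :=
          continuousAt_snd.sub continuousAt_const
        have hWc : ContinuousAt (fun w : M × ℝ =>
            R ^ 2 - f w ^ 2 - 2 * n * (w.2 - T₀)) z' :=
          (continuousAt_const.sub (hfw.pow 2)).sub (continuousAt_const.mul h2c)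
        have hs : ContinuousAt (fun w : M × ℝ => Z w / Y w ^ 2) z' :=
          hZw.div (hYw.pow 2) (by positivity)
        have hr : ContinuousAt (fun w : M × ℝ => X w / Y w - Z w / Y w ^ 2) z' :=
          (hXw.div hYw hY'.ne').sub hs
        have e1 := h2c.eventually (lt_mem_nhds ht')
        have e2 := hWc.eventually (lt_mem_nhds hW')
        have e3 := hYw.eventually (lt_mem_nhds hY')
        have e4 := hr.eventually (lt_mem_nhds hr')
        filter_upwards [e1, e2, e3, e4] with w g1 g2 g3 g4 hw2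
        have hwK : w ∈ K := by
          exact ⟨by linarith, hw2.trans hz'K.2⟩
        obtain ⟨f1, f2, f3, f4⟩ := hpt w (hK0 w hwK) g3
        obtain ⟨k1, k2⟩ := log_PhiF n κ k f X Y Z R T₀ w g2 g1 g4 f2 g3
        obtain ⟨l1, l2⟩ := log_PhiF n κ k f X Y Z R T₀ z' hW' ht' hr' d2 hY'
        rw [← k2, ← l2]
        exact Real.log_le_log k1 (hmax w hwK hw2)
      have hfin := hmx z' T₀ R hz'0 (by linarith) hR hY' hr' hW' hloc
      -- conclusion
      have hW'le : R ^ 2 - f z' ^ 2 - 2 * n * (z'.2 - T₀) ≤ R ^ 2 :=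
        (le_max_left _ 0).trans (hWle z' hz'K)
      set W' : ℝ := R ^ 2 - f z' ^ 2 - 2 * n * (z'.2 - T₀) with hW'def
      have hΦ' : PhiF n κ k f X Y Z R T₀ z' ≤ Ψ₀ ^ k * (56 * R ^ 2 * τ + (R ^ 2) ^ 2) := by
        have e1 : PhiF n κ k f X Y Z R T₀ z' = W' ^ 2 * (z'.2 - T₀)
            * ((X z' / Y z' - Z z' / Y z' ^ 2)
              / (κ - (Z z' / Y z' ^ 2 - 1 / n) - (X z' / Y z' - Z z' / Y z' ^ 2))) ^ k * Y z' := by
          unfold PhiF
          rw [← hW'def, max_eq_left hW'.le]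
        rw [e1]
        set Ψ' : ℝ := (X z' / Y z' - Z z' / Y z' ^ 2)
              / (κ - (Z z' / Y z' ^ 2 - 1 / n) - (X z' / Y z' - Z z' / Y z' ^ 2)) with hΨ'
        have e2 : W' ^ 2 * (z'.2 - T₀) * Ψ' ^ k * Y z'
            ≤ W' ^ 2 * (z'.2 - T₀) * Ψ₀ ^ k * (56 * R ^ 2 / W' ^ 2 + 1 / (z'.2 - T₀)) := by
          have := ht'.le
          gcongr
        refine e2.trans ?_
        have e3 : W' ^ 2 * (z'.2 - T₀) * Ψ₀ ^ k * (56 * R ^ 2 / W' ^ 2 + 1 / (z'.2 - T₀))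
            = Ψ₀ ^ k * (56 * R ^ 2 * (z'.2 - T₀) + W' ^ 2) := by
          field_simp
        rw [e3]
        have e4 := (htK z' hz'K).2
        have e5 : W' ^ 2 ≤ (R ^ 2) ^ 2 := pow_le_pow_left₀ hW'.le hW'le 2
        have : 0 ≤ Ψ₀ ^ k := pow_nonneg hΨ₀ k
        gcongr
      exact absurd (hv'.trans hΦ') (not_le.mpr hbig)
    have := hΦz.trans hwin
    rw [hR2] at this
    exact this
  -- contradiction for large τ
  set C : ℝ := Ψ₀ ^ k * (56 * (4 * n) + (4 * n) ^ 2) with hC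
  have hC0 : 0 ≤ C := mul_nonneg (pow_nonneg hΨ₀ k) (by positivity)
  have hn2 : 0 < n ^ 2 * a := by positivity
  set τ : ℝ := C / (n ^ 2 * a) + f z ^ 2 / n + 1 with hτ
  have hq1 : 0 ≤ C / (n ^ 2 * a) := by positivity
  have hq2 : 0 ≤ f z ^ 2 / n := by positivity
  have hτ0 : 0 < τ := by linarith
  have hτf : f z ^ 2 < n * τ := by
    have : n * (f z ^ 2 / n) = f z ^ 2 := by field_simp
    nlinarith
  have h := key τ hτ0 hτf
  have h' : τ ^ 2 * (n ^ 2 * a * τ) ≤ τ ^ 2 * C := by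
    rw [hC]
    nlinarith
  have h'' : n ^ 2 * a * τ ≤ C := le_of_mul_le_mul_left h' (by positivity)
  have h3' : n ^ 2 * a * (C / (n ^ 2 * a)) = C := by field_simp
  have : n ^ 2 * a * τ = C + n ^ 2 * a * (f z ^ 2 / n + 1) := by
    rw [hτ, mul_add, mul_add, h3']; ring
  have hpos : 0 < n ^ 2 * a * (f z ^ 2 / n + 1) := by positivity
  linarith

/-- LOCR. the local maximum principle under right properness: `Â = 0` -/
theorem hLOCR (hMX : StMX) (hI4 : StI4) (hPO : StPO) : StLOCR := by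
  intro n N hn κ κ₁ k hκ hk hKI M _ _ _ _ F hF hprop hpin p t ht
  have hn0 : (0 : ℝ) < n := by
    have : 0 < n := by omega
    exact_mod_cast this
  obtain ⟨i1, i2, i3, i4⟩ := hI4 n N M F hF
  have hpo := hPO n N (by omega) M F hF
  have core := loc_coreR (M := M) (n : ℝ) hn0 κ κ₁ k hκ hk
    (fun z => ‖F z.1 z.2‖) (fun z => AA (n := n) F z.1 z.2)
    (fun z => ‖HH (n := n) F z.1 z.2‖ ^ 2) (fun z => ZF (n := n) F z.1 z.2)
    i1.norm i3 (i2.norm.pow 2) i4 (fun z => by positivity)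
    (fun z hz => (hpo z.1 z.2 hz).2.2.1) (fun z hz => (hpo z.1 z.2 hz).2.2.2.1)
    (fun z hz => hpin z.1 z.2 hz) hprop
    (by
      intro z₀ T₀ R g1 g2 g3 g4 g5 g6 g7
      have hHne : HH (n := n) F z₀.1 z₀.2 ≠ 0 := by
        intro h0
        simp only [h0, norm_zero] at g4
        norm_num at g4
      obtain ⟨a1, a2, a3⟩ := loc_alg hn0 g4 (hpo z₀.1 z₀.2 g1).2.2.1
        (hpo z₀.1 z₀.2 g1).2.2.2.1 (hpin z₀.1 z₀.2 g1)
      exact hMX n N hn κ κ₁ k hκ hKI M F hF z₀.1 z₀.2 T₀ R g1 g2 g3 hHne g5 a3 g6 g7)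
  obtain ⟨q0, q1, q2, q3, q4, q5⟩ := hpo p t ht
  rcases (sq_nonneg ‖HH (n := n) F p t‖).eq_or_lt with h | h
  · rw [← h, mul_zero] at q3 ⊢
    linarith
  · have hc := core (p, t) ht h
    simp only at hc
    have h2 : (0 : ℝ) < (‖HH (n := n) F p t‖ ^ 2) ^ 2 := by positivity
    rw [sub_nonpos, div_le_div_iff₀ h h2] at hc
    refine le_antisymm ?_ q3
    have hc' : ‖HH (n := n) F p t‖ ^ 2 * (AA (n := n) F p t * ‖HH (n := n) F p t‖ ^ 2)
        ≤ ‖HH (n := n) F p t‖ ^ 2 * ZF (n := n) F p t := by nlinarith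
    exact le_of_mul_le_mul_left hc' h

end Helper99.PI
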